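import Pool.Agent.K1H35.JA.Stm

/-!
Project JA, piece REM: removing cycles from a walk without changing the set of visited states.
-/

set_option autoImplicit false

namespace Pool.Agent.K1H12.JA

open Finset Pool.Agent.K1H35.JA

/-- a shorter walk with the same visited set, after removal of one short closed walk -/
def Rem {n k : ℕ} (A : Aut n k) (q : Fin n) (x : Fin k → ℕ) (l : ℕ) (U : Finset (Fin n))
    (r : Fin n) : Prop :=
  ∃ (x' p : Fin k → ℕ) (l' : ℕ), l' < l ∧ RU A q x' l' U r ∧ p ∈ Cyc A U ∧ x = x' + p

/-- the walk is short: `L` is the set of the first states, all distinct -/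
def Sht {n k : ℕ} (A : Aut n k) (q : Fin n) (x : Fin k → ℕ) (l : ℕ) (U : Finset (Fin n))
    (r : Fin n) : Prop :=
  ∃ L : Finset (Fin n), l + 1 ≤ n * (U.card - 1) + L.card ∧ 0 < U.card ∧
    ∀ s ∈ L, ∃ (x1 x2 : Fin k → ℕ) (l1 l2 : ℕ) (W : Finset (Fin n)),
      RU A q x1 l1 W s ∧ RU A s x2 l2 U r ∧ x = x1 + x2 ∧ l = l1 + l2 ∧ l1 < L.card

theorem cyc_mono {n k : ℕ} (A : Aut n k) {U V : Finset (Fin n)} (h : U ⊆ V) :
    Cyc A U ⊆ Cyc A V := by
  rintro p ⟨u, hu, m, W, hm, hw⟩
  exact ⟨u, h hu, m, W, hm, hw⟩

theorem dich {n k : ℕ} (A : Aut n k) {q r : Fin n} {x : Fin k → ℕ} {l : ℕ}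
    {U : Finset (Fin n)} (h : RU A q x l U r) : Rem A q x l U r ∨ Sht A q x l U r := by
  induction h with
  | nil q =>
    right
    refine ⟨{q}, by simp, by simp, fun s hs => ?_⟩
    rw [Finset.mem_singleton] at hs
    subst hs
    exact ⟨0, 0, 0, 0, {s}, RU.nil s, RU.nil s, by simp, rfl, by simp⟩
  | @cons q q' r a x l U hstep hw ih =>
    rcases ih with ⟨x', p, l', hl', hw', hp, hx⟩ | ⟨L, hlen, hU, hL⟩
    · left
      refine ⟨vec a + x', p, l' + 1, by omega, RU.cons hstep hw', 
        cyc_mono A (Finset.subset_insert q U) hp, ?_⟩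
      rw [hx, add_assoc]
    · have hLn : L.card ≤ n := by
        simpa using Finset.card_le_univ L
      by_cases hq : q ∈ U
      · have hUU : insert q U = U := Finset.insert_eq_of_mem hq
        by_cases hqL : q ∈ L
        · left
          obtain ⟨x1, x2, l1, l2, W, h1, h2, hx, hl, hl1⟩ := hL q hqL
          refine ⟨x2, vec a + x1, l2, by omega, by rw [hUU]; exact h2,
            ⟨q, Finset.mem_insert_self q U, l1 + 1, insert q W, by omega, RU.cons hstep h1⟩, ?_⟩
          rw [hx]
          abel
        · right
          refine ⟨insert q L, ?_, ?_, ?_⟩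
          · rw [hUU, Finset.card_insert_of_notMem hqL]
            omega
          · rw [hUU]
            exact hU
          · intro s hs
            rcases Finset.mem_insert.1 hs with rfl | hs
            · refine ⟨0, vec a + x, 0, l + 1, {s}, RU.nil s, RU.cons hstep hw, by simp, by omega,
                ?_⟩
              rw [Finset.card_insert_of_notMem hqL]
              omega
            · obtain ⟨x1, x2, l1, l2, W, h1, h2, hx, hl, hl1⟩ := hL s hs
              refine ⟨vec a + x1, x2, l1 + 1, l2, insert q W, RU.cons hstep h1,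
                by rw [hUU]; exact h2, by rw [hx, add_assoc], by omega, ?_⟩
              rw [Finset.card_insert_of_notMem hqL]
              omega
      · right
        refine ⟨{q}, ?_, ?_, ?_⟩
        · rw [Finset.card_insert_of_notMem hq, Finset.card_singleton]
          obtain ⟨c, hc⟩ : ∃ c, U.card = c + 1 := ⟨U.card - 1, by omega⟩
          rw [hc] at hlen ⊢
          simp only [Nat.add_sub_cancel] at hlen ⊢
          rw [Nat.mul_add]
          omega
        · rw [Finset.card_insert_of_notMem hq]
          omega
        · intro s hs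
          rw [Finset.mem_singleton] at hs
          subst hs
          exact ⟨0, vec a + x, 0, l + 1, {s}, RU.nil s, RU.cons hstep hw, by simp, by omega,
            by simp⟩

/-- Piece REM. -/
theorem t_REM : S_REM := by
  intro n k A q r x l U h
  induction l using Nat.strong_induction_on generalizing x with
  | _ l ih =>
    rcases dich A h with ⟨x', p, l', hl', hw', hp, hx⟩ | ⟨L, hlen, hU, -⟩
    · obtain ⟨b, y, l'', hl'', hb, hy, hxy⟩ := ih l' hl' x' hw'
      refine ⟨b, y + p, l'', hl'', hb, AddSubmonoid.add_mem _ hy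
        (AddSubmonoid.subset_closure hp), ?_⟩
      rw [hx, hxy, add_assoc]
    · refine ⟨x, 0, l, ?_, h, AddSubmonoid.zero_mem _, by simp⟩
      have hLn : L.card ≤ n := by
        simpa using Finset.card_le_univ L
      have hUn : U.card ≤ n := by
        simpa using Finset.card_le_univ U
      have h1 : n * (U.card - 1) ≤ n * n := Nat.mul_le_mul_left n (by omega)
      nlinarith

end Pool.Agent.K1H12.JA
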